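import Pool.Agent.W758.AHC.Stm2

namespace Pool.Agent.W764.AHC

open Pool.Agent.W758.AHC

theorem main : S_UPV → S_LOW → (∀ n δ : ℕ, δ ≤ n → IsGreatest {p : ℕ |
    ∃ A B : Finset (Finset (Fin n)), (∀ a ∈ A, ∀ b ∈ B, (a ∩ b).card = δ) ∧
      p = A.card * B.card}
    ((Finset.range (n - δ + 1)).sup (fun m => 2 ^ m * Nat.choose (n - m) δ))) := by
  intro hU hL n δ hδ
  constructor
  · obtain ⟨m, hm, hm2⟩ := Finset.exists_mem_eq_sup (Finset.range (n - δ + 1))
      ⟨0, Finset.mem_range.2 (Nat.succ_pos _)⟩ (fun m => 2 ^ m * Nat.choose (n - m) δ)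
    obtain ⟨A, B, h1, h2⟩ := hL n δ m hδ (Nat.lt_succ_iff.1 (Finset.mem_range.1 hm))
    exact ⟨A, B, h1, hm2.trans h2.symm⟩
  · rintro p ⟨A, B, h1, rfl⟩
    have h := hU (Fin n) δ Finset.univ A B (fun _ _ => Finset.subset_univ _)
      (fun _ _ => Finset.subset_univ _) (fun a ha b hb => by
        convert h1 a ha b hb)
    rw [Finset.card_univ, Fintype.card_fin] at h
    exact h

end Pool.Agent.W764.AHC
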